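import Pool.Agent.H6.BG.Link

/-!
# The formula of Birch and Swinnerton-Dyer modulo two for the twists of `X_0(14)` by arbitrarily many
split and inert primes

For all the `D` of the class `Class14` the assertions of the `2`-part of the formula are decided by one
matrix over the field with two elements: `E_D(ℚ)` is finite with `Ш(E_D/ℚ)[2] = 0` exactly when the matrix
is nonsingular, and this holds exactly when `L(E_D, 1)` has the `2`-adic valuation of
`Ω ∏ c_p / #E_D(ℚ)_tors²`; otherwise `L(E_D, 1)` is an even square times this, up to a rational with odd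
numerator and odd denominator.
-/

set_option autoImplicit false

namespace Pool.Agent.Results.MP_9c97e9_nt.FormulaModTwoX14

open Pool.Agent.H6.Bsd

/-- **The formula modulo two** for all the twists `E_D` of `X_0(14)` with `D` in the class `Class14`. -/
theorem result : ∀ D : ℤ, Class14 D →
    IsGloballyMinimal (twist14 D) ∧
    (RankZeroShaTwo (twist14 D) ↔ Regular14 D) ∧
    (RankZeroShaTwo (twist14 D) → ShaTwoPrimaryTrivial (twist14 D)) ∧
    ∃ (Λ : ℂ → ℂ) (y : ℤ) (u : ℚ), IsLFunction (twist14 D) Λ ∧
      (Odd y ↔ RankZeroShaTwo (twist14 D)) ∧ (Λ 1 = 0 → y = 0) ∧ Odd u.num ∧ Odd u.den ∧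
      Λ 1 = ((u * (y : ℝ) ^ 2 * bsdFactor (twist14 D) : ℝ) : ℂ) :=
  fun _ hD => Pool.Agent.H6.BG.main14 hD

end Pool.Agent.Results.MP_9c97e9_nt.FormulaModTwoX14
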